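import Pool.Agent.X19.ASQ.Final

/-!
# The symmetric projective square of `c₀` is not almost square

The real Banach space `c₀` is almost square (ASQ), but its symmetric projective tensor square
(`N = 2`, with the symmetric projective norm `π_s`) is not ASQ. So the answer to Q1 is negative.

The proof. Let `u = e₀ ⊗ e₀`, and suppose `‖v‖ = 1` and `‖u ± v‖ ≤ 1 + ε`. Then
`|P(e₀)| + |P(v)| ≤ 1 + ε` for all the 2-homogeneous polynomials `P` of norm at most one. For the
polynomials `P = x₀² + R(x₁, x₂, …)` with `-1 ≤ R ≤ 0` on the unit ball this gives `|R(v)| ≤ 2 ε`.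
By Grothendieck's inequality (with the Pietsch type domination of the starting library,
`Pool.Agent.H758R2.Groth`) every polynomial of norm one in `x₁, x₂, …` is the difference of two
multiples `K R` of such `R`, `K` absolute, so it is small at `v`. The polynomials
`x₀² - (x₀ - 4 ℓ)² / 17`, `ℓ` linear, take care of the mixed terms `x₀ ℓ(x₁, x₂, …)`. Hence
`|P(v)| ≤ 1/2` for all the `P` of norm one, a contradiction for `ε = 10⁻⁵`.
-/

set_option autoImplicit false

namespace Pool.Agent.Results.MP_b5276a_an.SquareOfCZero

open scoped ZeroAtInfty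

/-- **Main result.** `c₀` is almost square; its symmetric projective tensor square is not. -/
theorem result : X19.ASQ.AlmostSquare C₀(ℕ, ℝ) ∧ ¬ X19.ASQ.AlmostSquare (X19.ASQ.SymProj 2 C₀(ℕ, ℝ)) :=
  ⟨X19.ASQ.almostSquare_C0, X19.ASQ.not_almostSquare⟩

end Pool.Agent.Results.MP_b5276a_an.SquareOfCZero
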